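import Pool.Agent.H798.BV.Stm2
import Pool.Agent.H807.BV.Bd

/-!
# S_BDP: Bregman domination of the first order Taylor remainder of `χ_p`, `2 < p ≤ 3`

`rem_near2` is an adaptation of `Pool.Agent.H807.BV.rem_near` (helper807).
-/

set_option autoImplicit false

open Pool.Agent.H798.BV Pool.Agent.H807.BV

namespace Pool.Agent.H163.BV

/-- second order bound from Bernoulli's inequality -/
theorem bern2 {σ x : ℝ} (h0 : 0 ≤ σ) (h1 : σ ≤ 1) (hx : 1 / 4 ≤ 1 + x) :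
    |(1 + x) ^ σ - (1 + σ * x)| ≤ x ^ 2 := by
  have hx0 : 0 < 1 + x := by linarith
  have hup := rpow_one_add_le_one_add_mul_self (s := x) (by linarith) h0 h1
  have hlo := rpow_one_add_le_one_add_mul_self (s := -x / (1 + x))
    (by rw [le_div_iff₀ hx0]; linarith) h0 h1
  have h2 : 1 + -x / (1 + x) = (1 + x)⁻¹ := by
    field_simp
    ring
  rw [h2, Real.inv_rpow hx0.le] at hlo
  have hA : 0 < (1 + x) ^ σ := Real.rpow_pos_of_pos hx0 σ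
  generalize (1 + x) ^ σ = A at *
  have hD : 1 / 4 ≤ 1 + (1 - σ) * x := by
    rcases le_or_gt 0 x with h | h
    · have : 0 ≤ (1 - σ) * x := mul_nonneg (by linarith) h
      linarith
    · nlinarith
  have h3 : 1 + x ≤ A * (1 + (1 - σ) * x) := by
    have h4 : A⁻¹ * (A * (1 + x)) ≤ (1 + σ * (-x / (1 + x))) * (A * (1 + x)) :=
      mul_le_mul_of_nonneg_right hlo (by positivity)
    have h5 : A⁻¹ * (A * (1 + x)) = 1 + x := by field_simp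
    have h6 : (1 + σ * (-x / (1 + x))) * (A * (1 + x)) = A * (1 + (1 - σ) * x) := by
      field_simp
      ring
    rw [h5, h6] at h4
    exact h4
  have hσ : σ * (1 - σ) ≤ 1 / 4 := by nlinarith [sq_nonneg (2 * σ - 1)]
  have h4 : (1 + σ * x - x ^ 2) * (1 + (1 - σ) * x) ≤ 1 + x := by
    have h5 : (1 + σ * x - x ^ 2) * (1 + (1 - σ) * x) =
        (1 + x) + x ^ 2 * (σ * (1 - σ) - (1 + (1 - σ) * x)) := by ring
    have h6 : x ^ 2 * (σ * (1 - σ) - (1 + (1 - σ) * x)) ≤ 0 :=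
      mul_nonpos_of_nonneg_of_nonpos (sq_nonneg x) (by linarith)
    linarith
  have h5 : 1 + σ * x - x ^ 2 ≤ A :=
    le_of_mul_le_mul_right (h4.trans h3) (by linarith)
  rw [abs_le]
  constructor
  · linarith
  · have := sq_nonneg x
    linarith

/-- near: the quadratic bound of the remainder -/
theorem rem_near2 {p : ℝ} (hp1 : 2 ≤ p) (hp2 : p ≤ 3) {w v : ℂ} (hw : w ≠ 0)
    (hv : ‖v‖ ≤ ‖w‖ / 2) :
    ‖chi p (w + v) - chi p w - (al p w * v + be p w * (starRingEnd ℂ) v)‖ ≤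
      21 * (‖w‖ ^ (p - 2) * (‖v‖ ^ 2 / ‖w‖)) := by
  have h0 : 0 < ‖w‖ := norm_pos_iff.2 hw
  obtain ⟨ρ, hρ⟩ : ∃ ρ : ℝ, ρ = ‖w‖ := ⟨_, rfl⟩
  rw [← hρ] at h0 hv ⊢
  obtain ⟨s, hs⟩ : ∃ s : ℝ, s = (2 - p) / 2 := ⟨_, rfl⟩
  have hs0 : s ≤ 0 := by rw [hs]; linarith
  have hs1 : -(1 / 2) ≤ s := by rw [hs]; linarith
  obtain ⟨c, hc⟩ : ∃ c : ℝ, c = ((starRingEnd ℂ) w * v).re := ⟨_, rfl⟩
  have hc1 : |c| ≤ ρ * ‖v‖ := by
    rw [hc]
    refine (Complex.abs_re_le_norm _).trans ?_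
    rw [norm_mul, Complex.norm_conj, hρ]
  obtain ⟨y, hy⟩ : ∃ y : ℝ, y = ‖v‖ / ρ := ⟨_, rfl⟩
  have hy0 : 0 ≤ y := by rw [hy]; positivity
  have hvy : ‖v‖ = y * ρ := by rw [hy]; field_simp
  have hy1 : y ≤ 1 / 2 := by
    rw [hy, div_le_iff₀ h0]
    linarith
  obtain ⟨x, hx⟩ : ∃ x : ℝ, x = 2 * (c / ρ ^ 2) + y ^ 2 := ⟨_, rfl⟩
  have hcρ : |c / ρ ^ 2| ≤ y := by
    rw [abs_div, abs_of_nonneg (sq_nonneg ρ), div_le_iff₀ (by positivity)]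
    rw [hvy] at hc1
    nlinarith
  obtain ⟨hcl, hcr⟩ := abs_le.1 hcρ
  have hN : ‖w + v‖ ^ 2 = ρ ^ 2 * (1 + x) := by
    have h1 : ‖w + v‖ ^ 2 = ρ ^ 2 + 2 * c + ‖v‖ ^ 2 := by
      rw [hρ, hc, norm_sq_eq, norm_sq_eq, norm_sq_eq]
      simp
      ring
    rw [h1, hx, hvy]
    field_simp
    ring
  have hx1 : 1 / 4 ≤ 1 + x := by
    rw [hx]
    nlinarith
  have hx2 : |x| ≤ 5 / 2 * y := by
    rw [abs_le, hx]
    constructor <;> nlinarith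
  have hx3 : x ^ 2 ≤ 25 / 4 * y ^ 2 := by
    rw [← sq_abs x]
    calc |x| ^ 2 ≤ (5 / 2 * y) ^ 2 := pow_le_pow_left₀ (abs_nonneg _) hx2 2
      _ = 25 / 4 * y ^ 2 := by ring
  have hbern := bern2 (σ := -s) (by linarith) (by linarith) hx1
  obtain ⟨P, hP⟩ : ∃ P : ℝ, P = ρ ^ (p - 2) := ⟨_, rfl⟩
  have hP0 : 0 ≤ P := by rw [hP]; exact Real.rpow_nonneg h0.le _
  have hchi : chi p (w + v) = ((P * (1 + x) ^ (-s) : ℝ) : ℂ) * (w + v) := by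
    unfold chi
    congr 2
    rw [norm_pow_eq, hN, Real.mul_rpow (sq_nonneg ρ) (by linarith), hP, hρ, norm_pow_eq w, hs]
  have hchiw : chi p w = (P : ℂ) * w := by
    rw [hP, hρ]
    rfl
  obtain ⟨ε, hε⟩ : ∃ ε : ℝ, ε = (1 + x) ^ (-s) - (1 + -s * x) := ⟨_, rfl⟩
  rw [← hε] at hbern
  have hε1 : |ε| ≤ 25 / 4 * y ^ 2 := hbern.trans hx3
  have hρc : (ρ : ℂ) ≠ 0 := by exact_mod_cast h0.ne'
  -- the linear part
  have hlin : al p w * v + be p w * (starRingEnd ℂ) v =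
      (P : ℂ) * (v - (2 * s * (c / ρ ^ 2) : ℝ) * w) := by
    have h1 : (w * (starRingEnd ℂ) v : ℂ) + (starRingEnd ℂ) w * v = ((2 * c : ℝ) : ℂ) := by
      rw [hc]
      apply Complex.ext
      · simp
        ring
      · simp
        ring
    have h2 : w * (starRingEnd ℂ) w = ((ρ ^ 2 : ℝ) : ℂ) := by
      rw [Complex.mul_conj, Complex.normSq_eq_norm_sq, hρ]
    unfold al be
    rw [← hρ, ← hP]
    push_cast at h1 h2 ⊢
    have h3 : w ^ 2 * (starRingEnd ℂ) v = 2 * (c : ℂ) * w - (ρ : ℂ) ^ 2 * v := by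
      linear_combination w * h1 - v * h2
    have h4 : w ^ 2 / (ρ : ℂ) ^ 2 * (starRingEnd ℂ) v = 2 * (c : ℂ) / (ρ : ℂ) ^ 2 * w - v := by
      rw [div_mul_eq_mul_div, h3]
      field_simp
    rw [hs]
    push_cast
    linear_combination ((P : ℂ) * (((p : ℂ) - 2) / 2)) * h4
  have heq : chi p (w + v) - chi p w - (al p w * v + be p w * (starRingEnd ℂ) v) =
      (P : ℂ) * (-((2 * s * (c / ρ ^ 2) : ℝ) : ℂ) * v + ((ε - s * y ^ 2 : ℝ) : ℂ) * (w + v)) := by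
    rw [hchi, hchiw, hlin]
    have h1 : (1 + x) ^ (-s) = ε + (1 - s * x) := by rw [hε]; ring
    rw [h1, hx]
    push_cast
    ring
  rw [heq, norm_mul, Complex.norm_real, Real.norm_of_nonneg hP0, ← hP]
  have hfin : ‖-((2 * s * (c / ρ ^ 2) : ℝ) : ℂ) * v + ((ε - s * y ^ 2 : ℝ) : ℂ) * (w + v)‖ ≤
      21 * (‖v‖ ^ 2 / ρ) := by
    refine (norm_add_le _ _).trans ?_
    rw [norm_mul, norm_mul, norm_neg, Complex.norm_real, Complex.norm_real, Real.norm_eq_abs,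
      Real.norm_eq_abs]
    have h1 : |2 * s * (c / ρ ^ 2)| ≤ y := by
      rw [abs_mul]
      have h2s : |2 * s| ≤ 1 := by rw [abs_le]; constructor <;> linarith
      calc |2 * s| * |c / ρ ^ 2| ≤ 1 * y :=
            mul_le_mul h2s hcρ (abs_nonneg _) (by norm_num)
        _ = y := one_mul y
    have h2 : |ε - s * y ^ 2| ≤ 13 * y ^ 2 := by
      obtain ⟨e1, e2⟩ := abs_le.1 hε1
      have h3 : -(1 / 2) * y ^ 2 ≤ s * y ^ 2 := mul_le_mul_of_nonneg_right hs1 (sq_nonneg y)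
      have h4 : s * y ^ 2 ≤ 0 := mul_nonpos_of_nonpos_of_nonneg hs0 (sq_nonneg y)
      have h5 := sq_nonneg y
      rw [abs_le]
      constructor <;> linarith
    have h3 : ‖w + v‖ ≤ 3 / 2 * ρ := by
      refine (norm_add_le _ _).trans ?_
      rw [← hρ]
      linarith
    have h4 : |2 * s * (c / ρ ^ 2)| * ‖v‖ ≤ y * ‖v‖ := mul_le_mul_of_nonneg_right h1 (norm_nonneg v)
    have h5 : |ε - s * y ^ 2| * ‖w + v‖ ≤ 13 * y ^ 2 * (3 / 2 * ρ) :=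
      mul_le_mul h2 h3 (norm_nonneg _) (by positivity)
    have h6 : ‖v‖ ^ 2 / ρ = y ^ 2 * ρ := by
      rw [hvy]
      field_simp
    rw [h6]
    have h7 : y * ‖v‖ = y ^ 2 * ρ := by rw [hvy]; ring
    have h8 : 0 ≤ y ^ 2 * ρ := by positivity
    linarith
  calc P * _ ≤ P * (21 * (‖v‖ ^ 2 / ρ)) := mul_le_mul_of_nonneg_left hfin hP0
    _ = 21 * (P * (‖v‖ ^ 2 / ρ)) := by ring

/-- `(c b) ^ (p-2) ≤ c b ^ (p-2)` for `c ≥ 1` -/
theorem rpow_up {p : ℝ} (hp2 : p ≤ 3) {b c : ℝ} (hb : 0 ≤ b) (hc : 1 ≤ c) :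
    (c * b) ^ (p - 2) ≤ c * b ^ (p - 2) := by
  rw [Real.mul_rpow (by linarith) hb]
  refine mul_le_mul_of_nonneg_right ?_ (Real.rpow_nonneg hb _)
  calc c ^ (p - 2) ≤ c ^ (1 : ℝ) := Real.rpow_le_rpow_of_exponent_le hc (by linarith)
    _ = c := Real.rpow_one c

/-- `(c b) ^ (p-1) ≤ c ^ 2 b ^ (p-1)` for `c ≥ 1` -/
theorem rpow_up' {p : ℝ} (hp2 : p ≤ 3) {b c : ℝ} (hb : 0 ≤ b) (hc : 1 ≤ c) :
    (c * b) ^ (p - 1) ≤ c ^ 2 * b ^ (p - 1) := by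
  rw [Real.mul_rpow (by linarith) hb]
  refine mul_le_mul_of_nonneg_right ?_ (Real.rpow_nonneg hb _)
  calc c ^ (p - 1) ≤ c ^ (2 : ℝ) := Real.rpow_le_rpow_of_exponent_le hc (by linarith)
    _ = c ^ 2 := Real.rpow_two c

/-- The inner product in the Bregman distance. -/
theorem chi_inner {p : ℝ} (W v : ℂ) :
    ((starRingEnd ℂ) (chi p W) * v).re = ‖W‖ ^ (p - 2) * ((starRingEnd ℂ) W * v).re := by
  unfold chi
  rw [map_mul, Complex.conj_ofReal, mul_assoc, Complex.re_ofReal_mul]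

/-- the lower bound of the Bregman distance -/
theorem breg2 {p : ℝ} (hp1 : 2 ≤ p) {W v : ℂ} (hW : W ≠ 0) :
    ‖W‖ ^ (p - 2) * ‖v‖ ^ 2 ≤
      ‖W + v‖ ^ p - ‖W‖ ^ p - p * ((starRingEnd ℂ) (chi p W) * v).re := by
  have hW0 : 0 < ‖W‖ := norm_pos_iff.2 hW
  rw [chi_inner]
  have hsq : ‖W + v‖ ^ 2 = ‖W‖ ^ 2 + 2 * ((starRingEnd ℂ) W * v).re + ‖v‖ ^ 2 := by
    rw [norm_sq_eq, norm_sq_eq, norm_sq_eq]
    simp
    ring
  have hX0 : 0 ≤ ‖W + v‖ := norm_nonneg _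
  generalize ‖W + v‖ = X at *
  generalize ((starRingEnd ℂ) W * v).re = c at *
  have hv0 := sq_nonneg ‖v‖
  generalize ‖v‖ ^ 2 = V at *
  generalize ‖W‖ = R at *
  -- Bernoulli
  have hb := one_add_mul_self_le_rpow_one_add (s := (X / R) ^ 2 - 1)
    (by have := sq_nonneg (X / R); linarith) (p := p / 2) (by linarith)
  rw [add_sub_cancel] at hb
  have h1 : ((X / R) ^ 2) ^ (p / 2) = X ^ p / R ^ p := by
    rw [← Real.rpow_natCast (X / R) 2, ← Real.rpow_mul (by positivity),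
      Real.div_rpow hX0 hW0.le]
    push_cast
    rw [show (2 : ℝ) * (p / 2) = p by ring]
  have hRp : 0 < R ^ p := Real.rpow_pos_of_pos hW0 p
  rw [h1, le_div_iff₀ hRp] at hb
  have h2 : R ^ p = R ^ (p - 2) * R ^ 2 := by
    rw [← Real.rpow_natCast R 2, ← Real.rpow_add hW0]
    congr 1
    push_cast
    ring
  have hP : 0 ≤ R ^ (p - 2) := Real.rpow_nonneg hW0.le _
  have h3 : (1 + p / 2 * ((X / R) ^ 2 - 1)) * R ^ p =
      R ^ p + p / 2 * (R ^ (p - 2) * (X ^ 2 - R ^ 2)) := by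
    rw [h2]
    field_simp
  rw [h3, hsq] at hb
  have h4 : R ^ (p - 2) * V ≤ p / 2 * (R ^ (p - 2) * V) := by
    have : 0 ≤ R ^ (p - 2) * V := mul_nonneg hP hv0
    nlinarith
  have h5 : p / 2 * (R ^ (p - 2) * (R ^ 2 + 2 * c + V - R ^ 2)) =
      p * (R ^ (p - 2) * c) + p / 2 * (R ^ (p - 2) * V) := by ring
  linarith

/-- the lower bound of the Bregman distance far away -/
theorem breg3 {p : ℝ} (hp1 : 2 ≤ p) (hp2 : p ≤ 3) {W v : ℂ} (hW : W ≠ 0)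
    (hv : 8 * ‖W‖ ≤ ‖v‖) :
    ‖v‖ ^ p / 4 ≤
      ‖W + v‖ ^ p - ‖W‖ ^ p - p * ((starRingEnd ℂ) (chi p W) * v).re := by
  have hW0 : 0 < ‖W‖ := norm_pos_iff.2 hW
  have hv0 : 0 < ‖v‖ := by linarith
  rw [chi_inner]
  have hX : 7 / 8 * ‖v‖ ≤ ‖W + v‖ := by
    have h1 := norm_sub_norm_le v (-W)
    rw [norm_neg, sub_neg_eq_add, add_comm v W] at h1
    linarith
  have hc : ((starRingEnd ℂ) W * v).re ≤ ‖W‖ * ‖v‖ := by
    refine (Complex.re_le_norm _).trans ?_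
    rw [norm_mul, Complex.norm_conj]
  have e1 : 42 / 64 * ‖v‖ ^ p ≤ ‖W + v‖ ^ p := by
    have h1 : (7 / 8 * ‖v‖) ^ p ≤ ‖W + v‖ ^ p :=
      Real.rpow_le_rpow (by positivity) hX (by linarith)
    rw [Real.mul_rpow (by norm_num) hv0.le] at h1
    have h2 : (7 / 8 : ℝ) ^ (3 : ℝ) ≤ (7 / 8 : ℝ) ^ p :=
      Real.rpow_le_rpow_of_exponent_ge (by norm_num) (by norm_num) hp2
    have h3 : (42 / 64 : ℝ) ≤ (7 / 8 : ℝ) ^ (3 : ℝ) := by
      rw [show (3 : ℝ) = ((3 : ℕ) : ℝ) by norm_num, Real.rpow_natCast]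
      norm_num
    have h4 : 0 ≤ ‖v‖ ^ p := Real.rpow_nonneg hv0.le _
    have h5 := mul_le_mul_of_nonneg_right (h3.trans h2) h4
    linarith
  have e2 : ‖W‖ ^ p ≤ 1 / 64 * ‖v‖ ^ p := by
    have h1 : ‖W‖ ^ p ≤ (1 / 8 * ‖v‖) ^ p :=
      Real.rpow_le_rpow hW0.le (by linarith) (by linarith)
    rw [Real.mul_rpow (by norm_num) hv0.le] at h1
    have h2 : (1 / 8 : ℝ) ^ p ≤ (1 / 8 : ℝ) ^ (2 : ℝ) :=
      Real.rpow_le_rpow_of_exponent_ge (by norm_num) (by norm_num) hp1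
    rw [Real.rpow_two] at h2
    have h4 : 0 ≤ ‖v‖ ^ p := Real.rpow_nonneg hv0.le _
    have h5 := mul_le_mul_of_nonneg_right h2 h4
    norm_num at h5 h1 ⊢
    linarith
  have e3 : p * (‖W‖ ^ (p - 2) * ((starRingEnd ℂ) W * v).re) ≤ 3 / 8 * ‖v‖ ^ p := by
    have h1 : ‖W‖ ^ (p - 1) ≤ 1 / 8 * ‖v‖ ^ (p - 1) := by
      have h1 : ‖W‖ ^ (p - 1) ≤ (1 / 8 * ‖v‖) ^ (p - 1) :=
        Real.rpow_le_rpow hW0.le (by linarith) (by linarith)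
      rw [Real.mul_rpow (by norm_num) hv0.le] at h1
      have h2 : (1 / 8 : ℝ) ^ (p - 1) ≤ (1 / 8 : ℝ) ^ (1 : ℝ) :=
        Real.rpow_le_rpow_of_exponent_ge (by norm_num) (by norm_num) (by linarith)
      rw [Real.rpow_one] at h2
      have h4 : 0 ≤ ‖v‖ ^ (p - 1) := Real.rpow_nonneg hv0.le _
      have h5 := mul_le_mul_of_nonneg_right h2 h4
      linarith
    have h2 : ‖W‖ ^ (p - 2) * ‖W‖ = ‖W‖ ^ (p - 1) := by
      rw [← Real.rpow_add_one hW0.ne']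
      congr 1
      ring
    have h3 : ‖v‖ ^ (p - 1) * ‖v‖ = ‖v‖ ^ p := by
      rw [← Real.rpow_add_one hv0.ne']
      congr 1
      ring
    have hP : 0 ≤ ‖W‖ ^ (p - 2) := Real.rpow_nonneg hW0.le _
    have h4 : ‖W‖ ^ (p - 2) * ((starRingEnd ℂ) W * v).re ≤ 1 / 8 * ‖v‖ ^ p := by
      calc ‖W‖ ^ (p - 2) * ((starRingEnd ℂ) W * v).re ≤ ‖W‖ ^ (p - 2) * (‖W‖ * ‖v‖) :=
            mul_le_mul_of_nonneg_left hc hP
        _ = ‖W‖ ^ (p - 1) * ‖v‖ := by rw [← mul_assoc, h2]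
        _ ≤ 1 / 8 * ‖v‖ ^ (p - 1) * ‖v‖ := mul_le_mul_of_nonneg_right h1 hv0.le
        _ = 1 / 8 * ‖v‖ ^ p := by rw [mul_assoc, h3]
    have h5 : 0 ≤ ‖v‖ ^ p := Real.rpow_nonneg hv0.le _
    calc p * (‖W‖ ^ (p - 2) * ((starRingEnd ℂ) W * v).re) ≤ p * (1 / 8 * ‖v‖ ^ p) :=
          mul_le_mul_of_nonneg_left h4 (by linarith)
      _ ≤ 3 * (1 / 8 * ‖v‖ ^ p) := mul_le_mul_of_nonneg_right hp2 (by linarith)
      _ = 3 / 8 * ‖v‖ ^ p := by ring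
  have h5 : 0 ≤ ‖v‖ ^ p := Real.rpow_nonneg hv0.le _
  linarith

theorem norm_be2 {p : ℝ} (hp1 : 2 ≤ p) {w : ℂ} (hw : w ≠ 0) :
    ‖be p w‖ = ‖w‖ ^ (p - 2) * ((p - 2) / 2) := by
  unfold be
  have h0 : 0 < ‖w‖ := norm_pos_iff.2 hw
  have e1 : ‖((‖w‖ ^ (p - 2) * ((p - 2) / 2) : ℝ) : ℂ)‖ = ‖w‖ ^ (p - 2) * ((p - 2) / 2) := by
    rw [Complex.norm_real, Real.norm_of_nonneg]
    exact mul_nonneg (Real.rpow_nonneg h0.le _) (by linarith)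
  have e2 : ‖((‖w‖ ^ 2 : ℝ) : ℂ)‖ = ‖w‖ ^ 2 := by
    rw [Complex.norm_real, Real.norm_of_nonneg (sq_nonneg _)]
  rw [norm_mul, norm_div, norm_pow, e1, e2, div_self (pow_pos h0 2).ne', mul_one]

/-- far: the sum of the sizes -/
theorem rem_far2 {p : ℝ} (hp1 : 2 ≤ p) (hp2 : p ≤ 3) {w v : ℂ} (hw : w ≠ 0)
    (hv : ‖w‖ ≤ 2 * ‖v‖) :
    ‖chi p (w + v) - chi p w - (al p w * v + be p w * (starRingEnd ℂ) v)‖ ≤
      17 * ‖v‖ ^ (p - 1) := by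
  have h0 : 0 < ‖w‖ := norm_pos_iff.2 hw
  have hv0 : 0 < ‖v‖ := by linarith
  have h1 : ‖chi p (w + v)‖ ≤ 3 ^ 2 * ‖v‖ ^ (p - 1) := by
    refine (norm_chi_le (by linarith) _).trans
      (le_trans ?_ (rpow_up' hp2 hv0.le (by norm_num : (1:ℝ) ≤ 3)))
    refine Real.rpow_le_rpow (norm_nonneg _) ?_ (by linarith)
    refine (norm_add_le _ _).trans ?_
    linarith
  have h2 : ‖chi p w‖ ≤ 2 ^ 2 * ‖v‖ ^ (p - 1) := by
    refine (norm_chi_le (by linarith) _).trans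
      (le_trans ?_ (rpow_up' hp2 hv0.le (by norm_num : (1:ℝ) ≤ 2)))
    exact Real.rpow_le_rpow (norm_nonneg _) hv (by linarith)
  have h3 : ‖w‖ ^ (p - 2) ≤ 2 * ‖v‖ ^ (p - 2) := by
    refine le_trans ?_ (rpow_up hp2 hv0.le (by norm_num : (1:ℝ) ≤ 2))
    exact Real.rpow_le_rpow (norm_nonneg _) hv (by linarith)
  have h4 : ‖v‖ ^ (p - 2) * ‖v‖ = ‖v‖ ^ (p - 1) := by
    rw [← Real.rpow_add_one hv0.ne']
    congr 1
    ring
  have h5 : ‖al p w * v + be p w * (starRingEnd ℂ) v‖ ≤ 4 * ‖v‖ ^ (p - 1) := by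
    refine (norm_add_le _ _).trans ?_
    rw [norm_mul, norm_mul, norm_al (by linarith), norm_be2 hp1 hw, Complex.norm_conj]
    have h6 : ‖w‖ ^ (p - 2) * (p / 2) * ‖v‖ + ‖w‖ ^ (p - 2) * ((p - 2) / 2) * ‖v‖ =
        (p - 1) * (‖w‖ ^ (p - 2) * ‖v‖) := by ring
    rw [h6]
    have h7 : ‖w‖ ^ (p - 2) * ‖v‖ ≤ 2 * ‖v‖ ^ (p - 1) := by
      rw [← h4, ← mul_assoc]
      exact mul_le_mul_of_nonneg_right h3 hv0.le
    have h8 : 0 ≤ ‖w‖ ^ (p - 2) * ‖v‖ := mul_nonneg (Real.rpow_nonneg h0.le _) hv0.le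
    calc (p - 1) * (‖w‖ ^ (p - 2) * ‖v‖) ≤ 2 * (‖w‖ ^ (p - 2) * ‖v‖) :=
          mul_le_mul_of_nonneg_right (by linarith) h8
      _ ≤ 4 * ‖v‖ ^ (p - 1) := by linarith
  have h7 := norm_sub_le (chi p (w + v) - chi p w) (al p w * v + be p w * (starRingEnd ℂ) v)
  have h8 := norm_sub_le (chi p (w + v)) (chi p w)
  norm_num at h1 h2
  linarith

theorem t_BDP : S_BDP := by
  intro p hp1 hp2
  refine ⟨1088, by norm_num, fun a ha0 ha1 w hw => ⟨al p w, be p w, fun z => ?_⟩⟩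
  obtain ⟨v, hv⟩ : ∃ v : ℂ, v = z - w := ⟨_, rfl⟩
  obtain ⟨W, hWd⟩ : ∃ W : ℂ, W = w - a := ⟨_, rfl⟩
  have hza : z - a = W + v := by rw [hv, hWd]; ring
  have hzw : z = w + v := by rw [hv]; ring
  have hWw : ‖W‖ ≤ ‖w‖ + a := by
    rw [hWd]
    refine (norm_sub_le _ _).trans ?_
    rw [Complex.norm_real, Real.norm_of_nonneg ha0]
  have hwW : ‖w‖ ≤ ‖W‖ + a := by
    have h1 : w = W + a := by rw [hWd]; ring
    rw [h1]
    refine (norm_add_le _ _).trans ?_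
    rw [Complex.norm_real, Real.norm_of_nonneg ha0]
  rw [← hv, ← hWd, hza]
  rw [← hWd] at hw
  have hW0 : 0 < ‖W‖ := by linarith
  have hWne : W ≠ 0 := norm_pos_iff.1 hW0
  have hw0 : 0 < ‖w‖ := by linarith
  have hwne : w ≠ 0 := norm_pos_iff.1 hw0
  have hv0 : 0 ≤ ‖v‖ := norm_nonneg v
  have hB := breg2 (p := p) hp1.le (W := W) (v := v) hWne
  have hB3 : 8 * ‖W‖ ≤ ‖v‖ → _ := breg3 (p := p) hp1.le hp2 (W := W) (v := v) hWne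
  have hP0 : 0 ≤ ‖W‖ ^ (p - 2) := Real.rpow_nonneg hW0.le _
  rcases le_or_gt ‖v‖ (‖w‖ / 2) with h | h
  · have h1 := rem_near2 hp1.le hp2 hwne h
    rw [← hzw] at h1
    refine h1.trans (le_trans ?_ (mul_le_mul_of_nonneg_left hB (by norm_num)))
    have h2 : ‖w‖ ^ (p - 2) ≤ 3 / 2 * ‖W‖ ^ (p - 2) := by
      refine le_trans ?_ (rpow_up hp2 hW0.le (by norm_num : (1:ℝ) ≤ 3 / 2))
      exact Real.rpow_le_rpow hw0.le (by linarith) (by linarith)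
    have h3 : ‖v‖ ^ 2 / ‖w‖ ≤ 4 * ‖v‖ ^ 2 := by
      rw [div_le_iff₀ hw0]
      nlinarith [sq_nonneg ‖v‖]
    have h4 : ‖w‖ ^ (p - 2) * (‖v‖ ^ 2 / ‖w‖) ≤ 3 / 2 * ‖W‖ ^ (p - 2) * (4 * ‖v‖ ^ 2) :=
      mul_le_mul h2 h3 (by positivity) (by positivity)
    have h5 : 0 ≤ ‖W‖ ^ (p - 2) * ‖v‖ ^ 2 := by positivity
    linarith
  · have h1 := rem_far2 hp1.le hp2 hwne (v := v) (by linarith)
    rw [← hzw] at h1
    refine h1.trans ?_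
    have hv1 : 0 < ‖v‖ := by linarith
    have hv8 : 1 / 8 ≤ ‖v‖ := by linarith
    have hvp : 0 ≤ ‖v‖ ^ (p - 1) := Real.rpow_nonneg hv0 _
    rcases le_or_gt (8 * ‖W‖) ‖v‖ with h2 | h2
    · have h3 := hB3 h2
      have h4 : ‖v‖ ^ p = ‖v‖ ^ (p - 1) * ‖v‖ := by
        rw [← Real.rpow_add_one hv1.ne']
        congr 1
        ring
      have h5 : ‖v‖ ^ (p - 1) * 4 ≤ ‖v‖ ^ p := by
        rw [h4]
        exact mul_le_mul_of_nonneg_left (by linarith) hvp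
      linarith
    · have h3 : ‖v‖ ^ (p - 2) ≤ 8 * ‖W‖ ^ (p - 2) := by
        refine le_trans ?_ (rpow_up hp2 hW0.le (by norm_num : (1:ℝ) ≤ 8))
        exact Real.rpow_le_rpow hv0 h2.le (by linarith)
      have h4 : ‖v‖ ^ (p - 1) = ‖v‖ ^ (p - 2) * ‖v‖ := by
        rw [← Real.rpow_add_one hv1.ne']
        congr 1
        ring
      have h5 : ‖v‖ ^ (p - 1) ≤ 64 * (‖W‖ ^ (p - 2) * ‖v‖ ^ 2) := by
        rw [h4]
        have h6 : ‖v‖ ≤ 8 * ‖v‖ ^ 2 := by nlinarith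
        calc ‖v‖ ^ (p - 2) * ‖v‖ ≤ (8 * ‖W‖ ^ (p - 2)) * (8 * ‖v‖ ^ 2) :=
              mul_le_mul h3 h6 hv0 (by positivity)
          _ = _ := by ring
      linarith

end Pool.Agent.H163.BV
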