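import Pool.Agent.H798.BV.Stm2
import Pool.Agent.H399.BV.C1

/-!
# S_C1P: the end of the proof for `a ≤ A`, `p > 2`

Adaptation of the proofs of `Pool.Agent.H738.BV.t_C1A` (helper738) and `Pool.Agent.H399.BV.t_C1`
(helper399).
-/

set_option autoImplicit false
set_option maxHeartbeats 4000000

namespace Pool.Agent.H163.BV

open Pool.Agent.H798.BV Pool.Agent.H399.BV Filter Topology

theorem ysq {y N G V mm : ℝ} (h4 : N ^ 2 ≤ mm * V) (h5 : y ≤ N + G) (hy0 : 0 ≤ y) :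
    y ^ 2 ≤ 2 * mm * V + 2 * G ^ 2 := by
  have h7 : y ^ 2 ≤ (N + G) ^ 2 := pow_le_pow_left₀ hy0 h5 2
  nlinarith [sq_nonneg (N - G)]

theorem ythe {y θ W : ℝ} (hW : 0 ≤ W) (h : θ ^ 2 ≤ y ^ 2 + W) : y * θ ≤ y ^ 2 + W := by
  nlinarith [sq_nonneg (y - θ)]

theorem stepA {n V g2 y a A B : ℝ} (hn : 0 ≤ n) (hg : 0 ≤ g2) (hB : B = 2 + A ^ 2)
    (hy : y ^ 2 ≤ 2 * (n + 1) * V + 2 * g2) (haV : a ^ 2 * V ≤ A ^ 2 * V) :
    y ^ 2 + a ^ 2 * V ≤ (2 * n + B) * (V + g2) := by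
  have h1 : 0 ≤ n * g2 := mul_nonneg hn hg
  have h2 : 0 ≤ A ^ 2 * g2 := mul_nonneg (sq_nonneg A) hg
  have h3 : (2 * n + B) * (V + g2) = 2 * (n + 1) * V + 2 * g2 + A ^ 2 * V + 2 * (n * g2)
      + A ^ 2 * g2 := by rw [hB]; ring
  rw [h3]
  linarith

theorem t_C1P : S_C1P := by
  intro A hA δ hδ
  obtain ⟨B, hB⟩ : ∃ B : ℝ, B = 2 + A ^ 2 := ⟨_, rfl⟩
  have hB0 : 0 ≤ B := by rw [hB]; positivity
  by_cases hδ1 : 1 < δ
  · refine ⟨1, fun m hm a ha ha4 w hw hl2 hw2 hwl J hJ hle => ?_⟩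
    have h1 : 0 ≤ ∑ k, ‖w k‖ * ‖((a : ℂ) - w k)⁻¹‖ := Finset.sum_nonneg fun k _ => by positivity
    have h2 : (1 - δ) * (m : ℝ) < 0 := mul_neg_of_neg_of_pos (by linarith) (by exact_mod_cast hm)
    linarith
  push Not at hδ1
  set r := 1 - δ with hr
  have hr0 : 0 ≤ r := by linarith
  have hr1 : r < 1 := by linarith
  have hlim : Tendsto (fun n : ℕ => (2 * (n : ℝ) + B) * r ^ n) atTop (𝓝 0) := by
    have h1 := tendsto_self_mul_const_pow_of_lt_one hr0 hr1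
    have h2 := tendsto_pow_atTop_nhds_zero_of_lt_one hr0 hr1
    have h3 := (h1.const_mul 2).add (h2.const_mul B)
    simpa [add_mul, mul_assoc] using h3
  obtain ⟨N1, hN1⟩ := (hlim.eventually
    (gt_mem_nhds (show (0 : ℝ) < 1 / 10 by norm_num))).exists_forall_of_atTop
  obtain ⟨N2, hN2⟩ := exists_nat_gt ((64 * A ^ 2 + 4) / δ ^ 2)
  refine ⟨N1 + N2 + 11, fun m hm a ha ha4 w hw hl2 hw2' hwl J hJ hle => ?_⟩
  obtain ⟨n, rfl⟩ : ∃ n, m = n + 1 := ⟨m - 1, by omega⟩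
  have hm0 : (0 : ℝ) < ((n + 1 : ℕ) : ℝ) := by positivity
  set mm : ℝ := ((n + 1 : ℕ) : ℝ) with hmm
  have hmn : mm = (n : ℝ) + 1 := by rw [hmm]; push_cast; rfl
  have hm8 : (11 : ℝ) ≤ mm := by
    have : 11 ≤ n + 1 := by omega
    rw [hmm]
    exact_mod_cast this
  have hw2 : ∑ k, ‖w k‖ ^ 2 ≤ mm ^ 2 := by nlinarith
  have hmC : ((n + 1 : ℕ) : ℂ) ≠ 0 := by
    exact_mod_cast Nat.succ_ne_zero n
  -- notation
  set l : Fin (n + 1) → ℂ := fun k => ((a : ℂ) - w k)⁻¹ with hl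
  set s : ℂ := (∑ k, l k) / ((n + 1 : ℕ) : ℂ) with hs
  set g : ℂ := (∑ k, w k) / ((n + 1 : ℕ) : ℂ) with hg
  have hsl : ∑ k, l k = ((n + 1 : ℕ) : ℂ) * s := by
    rw [hs]
    field_simp
  have hgw : ∑ k, w k = ((n + 1 : ℕ) : ℂ) * g := by
    rw [hg]
    field_simp
  set V : ℝ := (∑ k, ‖l k‖ ^ 2) / mm - ‖s‖ ^ 2 with hV
  have hVm : mm * V = ∑ k, ‖l k‖ ^ 2 - mm * ‖s‖ ^ 2 := by
    rw [hV]
    field_simp
  have hvar : ∑ k, ‖l k - s‖ ^ 2 = mm * V := by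
    rw [hVm, var_id (n + 1) l s hsl]
  have hV0 : 0 ≤ V := by
    have h1 : 0 ≤ mm * V := by
      rw [← hvar]
      exact Finset.sum_nonneg fun k _ => by positivity
    exact nonneg_of_mul_nonneg_right h1 hm0
  have hcs : ∀ f : Fin (n + 1) → ℂ, ‖∑ k, f k‖ ^ 2 ≤ mm * ∑ k, ‖f k‖ ^ 2 := by
    intro f
    have h1 := sq_sum_le_card_mul_sum_sq (s := (Finset.univ : Finset (Fin (n + 1))))
      (f := fun k => ‖f k‖)
    rw [Finset.card_univ, Fintype.card_fin] at h1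
    exact (pow_le_pow_left₀ (norm_nonneg _) (norm_sum_le _ _) 2).trans h1
  have hs1 : ‖s‖ < 1 := by
    rw [hs, norm_div, Complex.norm_natCast, div_lt_one hm0]
    have h1 := hcs l
    have h2 : mm * ∑ k, ‖l k‖ ^ 2 < mm * mm := mul_lt_mul_of_pos_left hl2 hm0
    have h3 : ‖∑ k, l k‖ ^ 2 < mm ^ 2 := by nlinarith
    exact lt_of_pow_lt_pow_left₀ 2 hm0.le h3
  have hVx : V ≤ 2 * (1 - ‖s‖) := by
    have h1 : (∑ k, ‖l k‖ ^ 2) / mm ≤ 1 := by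
      rw [div_le_one hm0]
      exact hl2.le
    have h2 : 0 ≤ ‖s‖ := norm_nonneg _
    rw [hV]
    nlinarith
  -- `g`
  have hg1 : ‖g‖ ^ 2 ≤ 1 := by
    have h1 : ‖g‖ ≤ 1 := by
      rw [hg, norm_div, Complex.norm_natCast, div_le_one hm0]
      have h1 := hcs w
      have h2 : mm * ∑ k, ‖w k‖ ^ 2 ≤ mm * mm := mul_le_mul_of_nonneg_left hw2' hm0.le
      have h3 : ‖∑ k, w k‖ ^ 2 ≤ mm ^ 2 := by nlinarith
      exact (pow_le_pow_iff_left₀ (norm_nonneg _) hm0.le two_ne_zero).1 h3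
    exact pow_le_one₀ (norm_nonneg _) h1
  -- `u k = |1 - a l k| = |w k| |l k|`
  have hane : ∀ k, (a : ℂ) - w k ≠ 0 := by
    intro k h
    exact hw k (sub_eq_zero.1 h).symm
  have hal : ∀ k, 1 - (a : ℂ) * l k = - (w k * l k) := by
    intro k
    have h1 : ((a : ℂ) - w k) * l k = 1 := mul_inv_cancel₀ (hane k)
    linear_combination -h1
  set y : ℝ := ‖1 - (a : ℂ) * s‖ with hy
  have hsum1 : ∑ k, (1 - (a : ℂ) * l k) = ((n + 1 : ℕ) : ℂ) * (1 - (a : ℂ) * s) := by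
    rw [Finset.sum_sub_distrib, ← Finset.mul_sum, hsl]
    simp
    ring
  -- variance identity for `1 - a l`
  have hG : ∑ k, ‖1 - (a : ℂ) * l k‖ ^ 2 = mm * (y ^ 2 + a ^ 2 * V) := by
    have h1 := var_id (n + 1) (fun k => 1 - (a : ℂ) * l k) _ hsum1
    have h2 : ∑ k, ‖1 - (a : ℂ) * l k - (1 - (a : ℂ) * s)‖ ^ 2 = a ^ 2 * (mm * V) := by
      rw [← hvar, Finset.mul_sum]
      refine Finset.sum_congr rfl fun k _ => ?_
      rw [show 1 - (a : ℂ) * l k - (1 - (a : ℂ) * s) = -((a : ℂ) * (l k - s)) by ring, norm_neg,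
        norm_mul, mul_pow, Complex.norm_real, Real.norm_eq_abs, sq_abs]
    rw [h2] at h1
    rw [hy]
    linarith
  -- the bound for `y`
  have hy2 : y ^ 2 ≤ 2 * mm * V + 2 * ‖g‖ ^ 2 := by
    have h1 : (∑ k, (w k - g) * (l k - s)) = ((n + 1 : ℕ) : ℂ) * (-(1 - (a : ℂ) * s) - g * s) := by
      have h2 : ∑ k, w k * l k = - (((n + 1 : ℕ) : ℂ) * (1 - (a : ℂ) * s)) := by
        rw [← hsum1, ← Finset.sum_neg_distrib]
        refine Finset.sum_congr rfl fun k _ => ?_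
        rw [hal, neg_neg]
      have h3 : ∑ k, (w k - g) * (l k - s) = ∑ k, w k * l k - (∑ k, w k) * s - g * ∑ k, l k
          + ((n + 1 : ℕ) : ℂ) * (g * s) := by
        rw [Finset.sum_mul, Finset.mul_sum, ← Finset.sum_sub_distrib, ← Finset.sum_sub_distrib]
        have h4 : ((n + 1 : ℕ) : ℂ) * (g * s) = ∑ _k : Fin (n + 1), g * s := by
          rw [Finset.sum_const, Finset.card_univ, Fintype.card_fin, nsmul_eq_mul]
        rw [h4, ← Finset.sum_add_distrib]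
        refine Finset.sum_congr rfl fun k _ => ?_
        ring
      rw [h3, h2, hgw, hsl]
      ring
    have h2 := cs (n + 1) (fun k => w k - g) (fun k => l k - s)
    rw [h1, hvar, var_id (n + 1) w g hgw, norm_mul, Complex.norm_natCast, mul_pow] at h2
    have h3 : mm ^ 2 * ‖-(1 - (a : ℂ) * s) - g * s‖ ^ 2 ≤ mm ^ 2 * (mm * V) := by
      calc mm ^ 2 * ‖-(1 - (a : ℂ) * s) - g * s‖ ^ 2
          ≤ (∑ k, ‖w k‖ ^ 2 - mm * ‖g‖ ^ 2) * (mm * V) := h2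
        _ ≤ mm ^ 2 * (mm * V) := by
            refine mul_le_mul_of_nonneg_right ?_ (mul_nonneg hm0.le hV0)
            have : 0 ≤ mm * ‖g‖ ^ 2 := by positivity
            linarith
    have h4 : ‖-(1 - (a : ℂ) * s) - g * s‖ ^ 2 ≤ mm * V :=
      le_of_mul_le_mul_left h3 (by positivity)
    have h5 : y ≤ ‖-(1 - (a : ℂ) * s) - g * s‖ + ‖g‖ := by
      have h6 : -(1 - (a : ℂ) * s) = (-(1 - (a : ℂ) * s) - g * s) + g * s := by ring
      calc y = ‖-(1 - (a : ℂ) * s)‖ := by rw [norm_neg]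
        _ = ‖(-(1 - (a : ℂ) * s) - g * s) + g * s‖ := by rw [← h6]
        _ ≤ ‖-(1 - (a : ℂ) * s) - g * s‖ + ‖g * s‖ := norm_add_le _ _
        _ ≤ ‖-(1 - (a : ℂ) * s) - g * s‖ + ‖g‖ := by
            rw [norm_mul]
            have : ‖g‖ * ‖s‖ ≤ ‖g‖ * 1 := mul_le_mul_of_nonneg_left hs1.le (norm_nonneg _)
            linarith
    exact ysq h4 h5 (norm_nonneg _)
  -- the product
  set θ : ℝ := (∑ k, ‖1 - (a : ℂ) * l k‖) / mm with hθ
  have hθ0 : 0 ≤ θ := div_nonneg (Finset.sum_nonneg fun k _ => norm_nonneg _) hm0.le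
  have hθr : θ ≤ r := by
    rw [hθ, div_le_iff₀ hm0]
    refine le_trans (le_of_eq ?_) hwl
    refine Finset.sum_congr rfl fun k _ => ?_
    rw [hal, norm_neg, norm_mul]
  have hprod : ‖∏ k, (1 - (a : ℂ) * l k)‖ ≤ θ ^ (n + 1) := by
    rw [norm_prod]
    exact amgm (n + 1) (Nat.succ_pos n) _ fun k => norm_nonneg _
  have hθG : θ ^ 2 ≤ y ^ 2 + a ^ 2 * V := by
    have h1 := sq_sum_le_card_mul_sum_sq (s := (Finset.univ : Finset (Fin (n + 1))))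
      (f := fun k => ‖1 - (a : ℂ) * l k‖)
    rw [hG, Finset.card_univ, Fintype.card_fin] at h1
    have h2 : (∑ k, ‖1 - (a : ℂ) * l k‖) = mm * θ := by
      rw [hθ]
      field_simp
    rw [h2] at h1
    have h3 : mm ^ 2 * θ ^ 2 ≤ mm ^ 2 * (y ^ 2 + a ^ 2 * V) := by
      calc mm ^ 2 * θ ^ 2 = (mm * θ) ^ 2 := by ring
        _ ≤ mm * (mm * (y ^ 2 + a ^ 2 * V)) := h1
        _ = mm ^ 2 * (y ^ 2 + a ^ 2 * V) := by ring
    exact le_of_mul_le_mul_left h3 (by positivity)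
  have hy0 : 0 ≤ y := norm_nonneg _
  have ha2 : a ^ 2 ≤ A ^ 2 := pow_le_pow_left₀ ha.le ha4 2
  have haV : a ^ 2 * V ≤ A ^ 2 * V := mul_le_mul_of_nonneg_right ha2 hV0
  have hyθ : y * θ ≤ y ^ 2 + a ^ 2 * V := by
    exact ythe (mul_nonneg (sq_nonneg a) hV0) hθG
  set ε : ℝ := (2 * (n : ℝ) + B) * r ^ n with hε
  have hε0 : 0 ≤ ε := by positivity
  have hε1 : ε < 1 / 10 := hN1 n (by omega)
  have hprod2 : y * ‖∏ k, (1 - (a : ℂ) * l k)‖ ≤ ε * (V + ‖g‖ ^ 2) := by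
    calc y * ‖∏ k, (1 - (a : ℂ) * l k)‖ ≤ y * θ ^ (n + 1) := mul_le_mul_of_nonneg_left hprod hy0
      _ = θ ^ n * (y * θ) := by ring
      _ ≤ r ^ n * (y ^ 2 + a ^ 2 * V) := by
          refine mul_le_mul (pow_le_pow_left₀ hθ0 hθr n) hyθ (mul_nonneg hy0 hθ0) (by positivity)
      _ ≤ r ^ n * ((2 * (n : ℝ) + B) * (V + ‖g‖ ^ 2)) := by
          refine mul_le_mul_of_nonneg_left ?_ (by positivity)
          have hg0 : 0 ≤ ‖g‖ ^ 2 := by positivity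
          have hn0 : (0 : ℝ) ≤ n := Nat.cast_nonneg n
          rw [hmn] at hy2
          exact stepA hn0 hg0 hB hy2 haV
      _ = ε * (V + ‖g‖ ^ 2) := by rw [hε]; ring
  -- the error term
  have hmδ2 : 64 * A ^ 2 + 4 ≤ mm * δ ^ 2 := by
    have h1 : (64 * A ^ 2 + 4) / δ ^ 2 ≤ mm := by
      refine hN2.le.trans ?_
      rw [hmm]
      exact_mod_cast (by omega : N2 ≤ n + 1)
    rw [div_le_iff₀ (by positivity)] at h1
    exact h1
  have hmδ : 4 ≤ mm * δ := by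
    have h1 : mm * δ ^ 2 ≤ mm * δ := by
      refine mul_le_mul_of_nonneg_left ?_ hm0.le
      nlinarith
    have h2 : 0 ≤ A ^ 2 := sq_nonneg A
    linarith
  have hη : a ^ 2 * (mm - 2) ^ 2 / ((mm * δ - 2) ^ 2 * (mm - 1)) ≤ 1 / 8 := by
    have h1 : mm * δ / 2 ≤ mm * δ - 2 := by linarith
    have h2 : (mm * δ / 2) ^ 2 ≤ (mm * δ - 2) ^ 2 := pow_le_pow_left₀ (by positivity) h1 2
    have h3 : mm / 2 ≤ mm - 1 := by linarith
    have h4 : (mm * δ / 2) ^ 2 * (mm / 2) ≤ (mm * δ - 2) ^ 2 * (mm - 1) :=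
      mul_le_mul h2 h3 (by positivity) (by positivity)
    have h5 : (0 : ℝ) < (mm * δ / 2) ^ 2 * (mm / 2) := by positivity
    rw [div_le_iff₀ (lt_of_lt_of_le h5 h4)]
    have h6 : (mm - 2) ^ 2 ≤ mm ^ 2 := by nlinarith
    have h7 : a ^ 2 * (mm - 2) ^ 2 ≤ A ^ 2 * mm ^ 2 :=
      mul_le_mul ha2 h6 (sq_nonneg _) (sq_nonneg A)
    have h8 : A ^ 2 * mm ^ 2 ≤ 1 / 8 * ((mm * δ / 2) ^ 2 * (mm / 2)) := by
      have h9 : 1 / 8 * ((mm * δ / 2) ^ 2 * (mm / 2)) = mm ^ 2 * (mm * δ ^ 2) / 64 := by ring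
      rw [h9]
      have h10 : 64 * A ^ 2 ≤ mm * δ ^ 2 := by linarith
      have h11 := mul_le_mul_of_nonneg_left h10 (sq_nonneg mm)
      linarith
    linarith
  set η : ℝ := a ^ 2 * (mm - 2) ^ 2 / ((mm * δ - 2) ^ 2 * (mm - 1)) with hηdef
  have hη0 : 0 ≤ η := by
    have : 0 ≤ mm - 1 := by linarith
    positivity
  -- `J`
  have hJ2 : ‖J‖ ≤ 1 - ‖g‖ ^ 2 / 2 := by
    have h1 : Real.exp (-((mm + 1) * ‖g‖ ^ 2 / 12)) ≤ Real.exp (-(‖g‖ ^ 2)) := by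
      apply Real.exp_le_exp.2
      have : 0 ≤ ‖g‖ ^ 2 := by positivity
      nlinarith
    exact (hJ.trans h1).trans (exp_le _ (by positivity) hg1)
  -- the end
  refine fin_ineq (1 - ‖s‖) V (‖g‖ ^ 2) ‖s * J‖ ε η (by linarith) hV0 hVx (by positivity) hg1 hε0
    hη0 (by linarith) ?_ ?_
  · rw [norm_mul, sub_sub_cancel]
    exact mul_le_mul_of_nonneg_left hJ2 (norm_nonneg _)
  · have h1 : (1 : ℂ) = s * J - (s * J - 1 + (1 - (a : ℂ) * s) * ∏ k, (1 - (a : ℂ) * l k))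
        + (1 - (a : ℂ) * s) * ∏ k, (1 - (a : ℂ) * l k) := by ring
    have h2 : (1 : ℝ) ≤ ‖s * J‖ +
        ‖s * J - 1 + (1 - (a : ℂ) * s) * ∏ k, (1 - (a : ℂ) * l k)‖ +
        ‖(1 - (a : ℂ) * s) * ∏ k, (1 - (a : ℂ) * l k)‖ := by
      calc (1 : ℝ) = ‖(1 : ℂ)‖ := by simp
        _ = ‖s * J - (s * J - 1 + (1 - (a : ℂ) * s) * ∏ k, (1 - (a : ℂ) * l k))
              + (1 - (a : ℂ) * s) * ∏ k, (1 - (a : ℂ) * l k)‖ := by rw [← h1]
        _ ≤ _ := (norm_add_le _ _).trans (add_le_add_left (norm_sub_le _ _) _)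
    have h3 : ‖s * J - 1 + (1 - (a : ℂ) * s) * ∏ k, (1 - (a : ℂ) * l k)‖ ≤ η * V := by
      refine hle.trans (le_of_eq ?_)
      rw [hηdef]
      ring
    have h4 : ‖(1 - (a : ℂ) * s) * ∏ k, (1 - (a : ℂ) * l k)‖ ≤ ε * (V + ‖g‖ ^ 2) := by
      rw [norm_mul]
      exact hprod2
    linarith

end Pool.Agent.H163.BV
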